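import Pool.Agent.Helper32_OMP.StmtB

/-! # Module REGX: the variables form a regular sequence -/

set_option autoImplicit false

namespace Pool.Agent.Helper32_OMP.H45

open MvPolynomial

theorem mem_of_X_mul_mem {σ : Type} {s : Set σ} {j : σ} (hj : j ∉ s) (f : MvPolynomial σ ℂ)
    (h : X j * f ∈ Ideal.span (X '' s : Set (MvPolynomial σ ℂ))) :
    f ∈ Ideal.span (X '' s : Set (MvPolynomial σ ℂ)) := by
  classical
  rw [mem_ideal_span_X_image] at h ⊢
  intro m hm
  have h1 : m + Finsupp.single j 1 ∈ (X j * f).support := by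
    rw [mem_support_iff, mul_comm, coeff_mul_X]
    exact mem_support_iff.1 hm
  obtain ⟨i, hi, h2⟩ := h _ h1
  refine ⟨i, hi, ?_⟩
  have hij : j ≠ i := fun e => hj (e ▸ hi)
  rwa [Finsupp.add_apply, Finsupp.single_eq_of_ne' hij, add_zero] at h2

theorem mem_smul_top_iff {R : Type} [CommRing R] {κ : Type} [Finite κ] (J : Ideal R)
    (f : κ → R) : f ∈ (J • ⊤ : Submodule R (κ → R)) ↔ ∀ k, f k ∈ J := by
  classical
  have := Fintype.ofFinite κ
  constructor
  · intro h
    refine Submodule.smul_induction_on h ?_ ?_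
    · intro r hr n _ k
      rw [Pi.smul_apply, smul_eq_mul]
      exact J.mul_mem_right _ hr
    · intro x y hx hy k
      exact J.add_mem (hx k) (hy k)
  · intro h
    have h1 : f = ∑ k, f k • (Pi.single k 1 : κ → R) := by
      funext l
      rw [Finset.sum_apply, Finset.sum_eq_single l]
      · simp
      · intro b _ hb
        simp [Pi.single_eq_of_ne hb.symm]
      · intro hl
        exact absurd (Finset.mem_univ l) hl
    rw [h1]
    exact Submodule.sum_mem _ fun k _ => Submodule.smul_mem_smul (h k) trivial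

theorem regx : RegxStmt := by
  classical
  intro σ _
  let l : List σ := Finset.univ.toList
  have hnd : l.Nodup := Finset.nodup_toList _
  refine ⟨l.map X, by simp [l], ?_, ?_⟩
  · intro r hr
    obtain ⟨s, -, hs⟩ := List.mem_map.1 hr
    exact ⟨s, hs.symm⟩
  · intro κ _
    refine ⟨fun i hi => ?_⟩
    rw [List.length_map] at hi
    rw [isSMulRegular_quotient_iff_mem_of_smul_mem]
    intro f hf
    rw [mem_smul_top_iff] at hf ⊢
    intro k
    have h1 := hf k
    have h2 : Ideal.ofList ((l.map (X : σ → MvPolynomial σ ℂ)).take i) =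
        Ideal.span (X '' {s | s ∈ l.take i} : Set (MvPolynomial σ ℂ)) := by
      rw [Ideal.ofList, ← List.map_take]
      congr 1
      ext p
      exact List.mem_map
    rw [h2] at h1 ⊢
    have h3 : (l.map (X : σ → MvPolynomial σ ℂ))[i]'(by simpa using hi) = X (l[i]) := by
      simp
    rw [Pi.smul_apply, smul_eq_mul, h3] at h1
    refine mem_of_X_mul_mem ?_ _ h1
    intro h4
    have h5 : l[i] ∈ l.take i := h4
    obtain ⟨j, hj, h6⟩ := List.mem_take_iff_getElem.1 h5
    have h7 : j < i := lt_of_lt_of_le hj (min_le_left _ _)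
    have := (List.Nodup.getElem_inj_iff hnd).1 h6
    omega

end Pool.Agent.Helper32_OMP.H45
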